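import Mathlib

/-!
# Generalised polynomials over an algebra: the coproduct `R * P⟨X⟩`
-/

set_option autoImplicit false

open scoped TensorProduct

namespace Pool.Y109E

/-- The relations imposed on the free `P`-algebra on the disjoint union of `R` and `X`, so that
`R → R * P⟨X⟩` becomes a homomorphism of `P`-algebras. -/
inductive GRel (P : Type) (R : Type) [Field P] [Ring R] [Algebra P R] (X : Type) :
    FreeAlgebra P (R ⊕ X) → FreeAlgebra P (R ⊕ X) → Prop
  | add (r s : R) : GRel P R X (FreeAlgebra.ι P (Sum.inl (r + s)))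
      (FreeAlgebra.ι P (Sum.inl r) + FreeAlgebra.ι P (Sum.inl s))
  | mul (r s : R) : GRel P R X (FreeAlgebra.ι P (Sum.inl (r * s)))
      (FreeAlgebra.ι P (Sum.inl r) * FreeAlgebra.ι P (Sum.inl s))
  | alg (p : P) : GRel P R X (FreeAlgebra.ι P (Sum.inl (algebraMap P R p))) (algebraMap P _ p)

/-- `R * P⟨X⟩`: the coproduct of the `P`-algebra `R` and the free `P`-algebra on `X`
(see `GPoly.lift` and `GPoly.hom_ext` for its universal property). -/
def GPoly (P : Type) (R : Type) [Field P] [Ring R] [Algebra P R] (X : Type) : Type :=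
  RingQuot (GRel P R X)

namespace GPoly

variable (P : Type) (R : Type) [Field P] [Ring R] [Algebra P R] (X : Type)

noncomputable instance : Ring (GPoly P R X) := inferInstanceAs (Ring (RingQuot (GRel P R X)))

noncomputable instance : Algebra P (GPoly P R X) :=
  inferInstanceAs (Algebra P (RingQuot (GRel P R X)))

/-- the quotient map -/
noncomputable def mk : FreeAlgebra P (R ⊕ X) →ₐ[P] GPoly P R X :=
  RingQuot.mkAlgHom P (GRel P R X)

theorem mk_surjective : Function.Surjective (mk P R X) :=
  RingQuot.mkAlgHom_surjective P (GRel P R X)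

variable {P R X}

theorem mk_rel {x y : FreeAlgebra P (R ⊕ X)} (h : GRel P R X x y) :
    mk P R X x = mk P R X y :=
  RingQuot.mkAlgHom_rel P h

/-- constants: the map `R → R * P⟨X⟩` -/
noncomputable def C : R →ₐ[P] GPoly P R X where
  toFun r := mk P R X (FreeAlgebra.ι P (Sum.inl r))
  map_one' := by
    have h := mk_rel (GRel.alg (P := P) (R := R) (X := X) 1)
    rw [map_one] at h
    rw [h, map_one, map_one]
  map_mul' r s := by rw [mk_rel (GRel.mul r s), map_mul]
  map_zero' := by
    have h := mk_rel (GRel.alg (P := P) (R := R) (X := X) 0)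
    rw [map_zero] at h
    rw [h, map_zero, map_zero]
  map_add' r s := by rw [mk_rel (GRel.add r s), map_add]
  commutes' p := by rw [mk_rel (GRel.alg p), AlgHom.commutes]

/-- the unknowns -/
noncomputable def var (x : X) : GPoly P R X := mk P R X (FreeAlgebra.ι P (Sum.inr x))

/-- universal property of `R * P⟨X⟩`: existence -/
noncomputable def lift {A : Type} [Ring A] [Algebra P A] (g : R →ₐ[P] A) (v : X → A) :
    GPoly P R X →ₐ[P] A :=
  RingQuot.liftAlgHom P (s := GRel P R X)
    ⟨FreeAlgebra.lift P (Sum.elim g v), by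
      intro x y h
      cases h with
      | add r s => simp
      | mul r s => simp
      | alg p => simp⟩

@[simp] theorem lift_C {A : Type} [Ring A] [Algebra P A] (g : R →ₐ[P] A) (v : X → A) (r : R) :
    lift g v (C r) = g r := by
  change RingQuot.liftAlgHom P _ (RingQuot.mkAlgHom P (GRel P R X) _) = _
  rw [RingQuot.liftAlgHom_mkAlgHom_apply]
  simp

@[simp] theorem lift_var {A : Type} [Ring A] [Algebra P A] (g : R →ₐ[P] A) (v : X → A) (x : X) :
    lift g v (var x) = v x := by
  change RingQuot.liftAlgHom P _ (RingQuot.mkAlgHom P (GRel P R X) _) = _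
  rw [RingQuot.liftAlgHom_mkAlgHom_apply]
  simp

theorem induction {p : GPoly P R X → Prop} (hC : ∀ r, p (C r)) (hX : ∀ x, p (var x))
    (hadd : ∀ a b, p a → p b → p (a + b)) (hmul : ∀ a b, p a → p b → p (a * b))
    (f : GPoly P R X) : p f := by
  obtain ⟨y, rfl⟩ := mk_surjective P R X f
  induction y using FreeAlgebra.induction with
  | grade0 q =>
    have h : mk P R X (algebraMap P _ q) = C (algebraMap P R q) := by
      rw [AlgHom.commutes, AlgHom.commutes]
    rw [h]; exact hC _
  | grade1 x =>
    cases x with
    | inl r => exact hC r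
    | inr x => exact hX x
  | mul a b ha hb => rw [map_mul]; exact hmul _ _ ha hb
  | add a b ha hb => rw [map_add]; exact hadd _ _ ha hb

/-- universal property of `R * P⟨X⟩`: uniqueness -/
theorem hom_ext {A : Type} [Ring A] [Algebra P A] {g h : GPoly P R X →ₐ[P] A}
    (hC : ∀ r, g (C r) = h (C r)) (hX : ∀ x, g (var x) = h (var x)) : g = h := by
  ext f
  induction f using GPoly.induction with
  | hC r => exact hC r
  | hX x => exact hX x
  | hadd a b ha hb => rw [map_add, map_add, ha, hb]
  | hmul a b ha hb => rw [map_mul, map_mul, ha, hb]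

/-- substitution of elements of `R` for the unknowns -/
noncomputable def eval (r : X → R) : GPoly P R X →ₐ[P] R := lift (AlgHom.id P R) r

end GPoly

open GPoly

/-- the image of `r ∈ R` in `R * P⟨X⟩` -/
noncomputable def cst (P : Type) {R : Type} [Field P] [Ring R] [Algebra P R] (X : Type) (r : R) :
    GPoly P R X :=
  RingQuot.mkAlgHom P (GRel P R X) (FreeAlgebra.ι P (Sum.inl r))

/-- the unknown `x ∈ X` as an element of `R * P⟨X⟩` -/
noncomputable def unk (P R : Type) [Field P] [Ring R] [Algebra P R] {X : Type} (x : X) :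
    GPoly P R X :=
  RingQuot.mkAlgHom P (GRel P R X) (FreeAlgebra.ι P (Sum.inr x))

/-- Every equation `f = 0` over `R` in the unknowns `X` (where `f ∈ R * P⟨X⟩` is not in `R`) has a
solution `(r x)_x` in `R`: the homomorphism `φ` which is the identity on `R` and maps `x` to `r x`
satisfies `φ f = 0`. -/
def ClosedIn (P R : Type) [Field P] [Ring R] [Algebra P R] (X : Type) : Prop :=
  ∀ f : GPoly P R X, (∀ r : R, f ≠ cst P X r) →
    ∃ (r : X → R) (φ : GPoly P R X →ₐ[P] R),
      (∀ s : R, φ (cst P X s) = s) ∧ (∀ x : X, φ (unk P R x) = r x) ∧ φ f = 0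

theorem closedIn_iff {P R : Type} [Field P] [Ring R] [Algebra P R] {X : Type} :
    ClosedIn P R X ↔ ∀ f : GPoly P R X, f ∉ Set.range (C : R →ₐ[P] GPoly P R X) →
      ∃ r : X → R, eval r f = 0 := by
  constructor
  · intro h f hf
    obtain ⟨r, φ, h1, h2, h3⟩ := h f (fun r hr => hf ⟨r, hr.symm⟩)
    refine ⟨r, ?_⟩
    have : eval r = φ := by
      apply hom_ext
      · intro s
        rw [eval, lift_C]
        exact (h1 s).symm
      · intro x
        rw [eval, lift_var]
        exact (h2 x).symm
    rw [this, h3]
  · intro h f hf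
    obtain ⟨r, hr⟩ := h f (by rintro ⟨s, hs⟩; exact hf s hs.symm)
    refine ⟨r, eval r, ?_, ?_, hr⟩
    · intro s
      exact lift_C (AlgHom.id P R) r s
    · intro x
      exact lift_var (AlgHom.id P R) r x

section main

variable {P : Type} {R : Type} [Field P] [Ring R] [Algebra P R]

/-- two functionals dual to `1, a` -/
theorem exists_functionals [Nontrivial R] {a : R} (ha : a ∉ Set.range (algebraMap P R)) :
    ∃ φ ψ : R →ₗ[P] P, φ 1 = 1 ∧ φ a = 0 ∧ ψ 1 = 0 ∧ ψ a = 1 := by
  let g : (P × P) →ₗ[P] R :=
    LinearMap.coprod (LinearMap.toSpanSingleton P R 1) (LinearMap.toSpanSingleton P R a)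
  have hg : ∀ p q : P, g (p, q) = p • 1 + q • a := fun p q => by simp [g]
  have hker : LinearMap.ker g = ⊥ := by
    rw [LinearMap.ker_eq_bot']
    rintro ⟨p, q⟩ h
    rw [hg] at h
    have hq : q = 0 := by
      by_contra hq
      apply ha
      refine ⟨-(q⁻¹ * p), ?_⟩
      rw [Algebra.algebraMap_eq_smul_one]
      have h1 : q • a = -(p • (1 : R)) := eq_neg_of_add_eq_zero_right h
      have h2 : a = q⁻¹ • (q • a) := by rw [smul_smul, inv_mul_cancel₀ hq, one_smul]
      rw [h2, h1, smul_neg, smul_smul, neg_smul]
    subst hq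
    rw [zero_smul, add_zero] at h
    have hp : p = 0 := (smul_eq_zero.1 h).resolve_right one_ne_zero
    rw [hp]; rfl
  obtain ⟨h, hh⟩ := g.exists_leftInverse_of_injective hker
  have e1 : h 1 = (1, 0) := by
    have := congrArg (fun l => l (1, 0)) hh
    simpa [hg] using this
  have e2 : h a = (0, 1) := by
    have := congrArg (fun l => l (0, 1)) hh
    simpa [hg] using this
  refine ⟨LinearMap.fst P P P ∘ₗ h, LinearMap.snd P P P ∘ₗ h, ?_, ?_, ?_, ?_⟩ <;> simp [e1, e2]

/-- the substitution `x_i ↦ x a x^(i+1)` -/
noncomputable def subst (a : R) : GPoly P R ℕ →ₐ[P] GPoly P R Unit :=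
  lift C (fun i => var () * C a * var () ^ (i + 1))

/-- evaluation of a functional on the left factor -/
noncomputable def evL (P : Type) (R : Type) [Field P] [Ring R] [Algebra P R] (S : Type)
    [AddCommGroup S] [Module P S] (φ : R →ₗ[P] P) : R ⊗[P] S →ₗ[P] S :=
  TensorProduct.lift ((LinearMap.lsmul P S) ∘ₗ φ)

@[simp] theorem evL_tmul (S : Type) [AddCommGroup S] [Module P S] (φ : R →ₗ[P] P) (r : R)
    (s : S) : evL P R S φ (r ⊗ₜ s) = φ r • s := by
  simp [evL]

section model

variable (P R)

/-- the underlying space of the detecting module -/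
abbrev Mod : Type :=
  GPoly P R ℕ × (ℕ →₀ (R ⊗[P] GPoly P R ℕ))

/-- the action of `R` -/
noncomputable def act : R →ₐ[P] Module.End P (Mod P R) where
  toFun r := LinearMap.prodMap (LinearMap.mulLeft P (C r))
    (Finsupp.mapRange.linearMap ((LinearMap.mulLeft P r).rTensor (GPoly P R ℕ)))
  map_one' := by
    apply LinearMap.ext
    rintro ⟨x, y⟩
    simp only [LinearMap.prodMap_apply, Module.End.one_apply, Prod.mk.injEq]
    constructor
    · simp
    · induction y using Finsupp.induction_linear with
      | zero => simp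
      | add f g hf hg => rw [map_add, hf, hg]
      | single i t =>
        simp only [Finsupp.mapRange.linearMap_apply, Finsupp.mapRange_single]
        congr 1
        induction t using TensorProduct.induction_on with
        | zero => simp
        | tmul a b => simp
        | add a b ha hb => rw [map_add, ha, hb]
  map_mul' r s := by
    apply LinearMap.ext
    rintro ⟨x, y⟩
    simp only [LinearMap.prodMap_apply, Module.End.mul_apply, Prod.mk.injEq]
    constructor
    · simp
    · induction y using Finsupp.induction_linear with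
      | zero => simp
      | add f g hf hg => simp only [map_add, hf, hg]
      | single i t =>
        simp only [Finsupp.mapRange.linearMap_apply, Finsupp.mapRange_single]
        congr 1
        induction t using TensorProduct.induction_on with
        | zero => simp
        | tmul a b => simp
        | add a b ha hb => rw [map_add, ha, hb, map_add, map_add]
  map_zero' := by
    apply LinearMap.ext
    rintro ⟨x, y⟩
    rw [LinearMap.prodMap_apply]
    refine Prod.ext ?_ ?_
    · simp
    · change Finsupp.mapRange.linearMap _ y = (0 : ℕ →₀ (R ⊗[P] GPoly P R ℕ))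
      induction y using Finsupp.induction_linear with
      | zero => rw [map_zero]
      | add f g hf hg => rw [map_add, hf, hg, add_zero]
      | single i t =>
        simp only [Finsupp.mapRange.linearMap_apply, Finsupp.mapRange_single]
        rw [Finsupp.single_eq_zero]
        induction t using TensorProduct.induction_on with
        | zero => simp
        | tmul a b => simp
        | add a b ha hb => rw [map_add, ha, hb, add_zero]
  map_add' r s := by
    apply LinearMap.ext
    rintro ⟨x, y⟩
    simp only [LinearMap.prodMap_apply, LinearMap.add_apply, Prod.mk_add_mk, Prod.mk.injEq]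
    constructor
    · simp [add_mul]
    · induction y using Finsupp.induction_linear with
      | zero => simp
      | add f g hf hg =>
        rw [map_add, map_add, map_add, hf, hg]; abel
      | single i t =>
        simp only [Finsupp.mapRange.linearMap_apply, Finsupp.mapRange_single]
        rw [← Finsupp.single_add]
        congr 1
        induction t using TensorProduct.induction_on with
        | zero => simp
        | tmul a b => simp [add_mul, TensorProduct.add_tmul]
        | add a b ha hb => rw [map_add, ha, hb, map_add, map_add]; abel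
  commutes' p := by
    apply LinearMap.ext
    rintro ⟨x, y⟩
    simp only [LinearMap.prodMap_apply, Module.algebraMap_end_apply, Prod.smul_mk, Prod.mk.injEq]
    constructor
    · simp [Algebra.smul_def]
    · induction y using Finsupp.induction_linear with
      | zero => simp
      | add f g hf hg => rw [map_add, hf, hg, smul_add]
      | single i t =>
        simp only [Finsupp.mapRange.linearMap_apply, Finsupp.mapRange_single, Finsupp.smul_single]
        congr 1
        induction t using TensorProduct.induction_on with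
        | zero => simp
        | tmul a b =>
          rw [LinearMap.rTensor_tmul, LinearMap.mulLeft_apply, ← Algebra.smul_def,
            TensorProduct.smul_tmul']
        | add a b ha hb => rw [map_add, ha, hb, smul_add]

variable {P R}

/-- the operator by which the single unknown acts -/
noncomputable def opX (φ ψ : R →ₗ[P] P) : Module.End P (Mod P R) :=
  LinearMap.prod
    ((Finsupp.lsum P fun j : ℕ =>
      (LinearMap.mulLeft P (var j)) ∘ₗ evL P R (GPoly P R ℕ) ψ) ∘ₗ LinearMap.snd P _ _)
    ((Finsupp.lsingle 0 ∘ₗ TensorProduct.mk P R (GPoly P R ℕ) 1) ∘ₗ LinearMap.fst P _ _ +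
      (Finsupp.lsum P fun j : ℕ => (Finsupp.lsingle (j + 1) ∘ₗ TensorProduct.mk P R _ 1) ∘ₗ
        evL P R (GPoly P R ℕ) φ) ∘ₗ LinearMap.snd P _ _)

theorem opX_fst (φ ψ : R →ₗ[P] P) (s : GPoly P R ℕ) :
    opX φ ψ (s, 0) = (0, Finsupp.single 0 (1 ⊗ₜ s)) := by
  simp [opX]

theorem opX_single (φ ψ : R →ₗ[P] P) (j : ℕ) (r : R) (s : GPoly P R ℕ) :
    opX φ ψ (0, Finsupp.single j (r ⊗ₜ s)) =
      (ψ r • (var j * s), Finsupp.single (j + 1) (1 ⊗ₜ (φ r • s))) := by
  simp [opX]

end model

/-- the substitution does not turn equations into constants -/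
theorem subst_detects [Nontrivial R] {a : R} (ha : a ∉ Set.range (algebraMap P R))
    {f : GPoly P R ℕ} (hf : subst a f ∈ Set.range (C : R →ₐ[P] GPoly P R Unit)) :
    f ∈ Set.range (C : R →ₐ[P] GPoly P R ℕ) := by
  obtain ⟨φ, ψ, h1, h2, h3, h4⟩ := exists_functionals ha
  let Ψ : GPoly P R Unit →ₐ[P] Module.End P (Mod P R) := lift (act P R) (fun _ => opX φ ψ)
  have hpow : ∀ (i : ℕ) (s : GPoly P R ℕ),
      (opX φ ψ ^ (i + 1)) (s, 0) = (0, Finsupp.single i (1 ⊗ₜ s)) := by
    intro i s
    induction i with
    | zero => rw [zero_add, pow_one, opX_fst]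
    | succ i ih =>
      rw [pow_succ' _ (i + 1), Module.End.mul_apply, ih, opX_single, h1, h3, zero_smul, one_smul]
  have key : ∀ g : GPoly P R ℕ, ∀ s : GPoly P R ℕ, Ψ (subst a g) (s, 0) = (g * s, 0) := by
    intro g
    induction g using GPoly.induction with
    | hC r =>
      intro s
      simp only [subst, lift_C, Ψ]
      simp [act]
    | hX i =>
      intro s
      simp only [subst, lift_var, Ψ, map_mul, map_pow, lift_C]
      rw [Module.End.mul_apply, Module.End.mul_apply, hpow]
      have e : act P R a (0, Finsupp.single i ((1 : R) ⊗ₜ[P] s)) =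
          (0, Finsupp.single i (a ⊗ₜ[P] s)) := by
        simp [act]
      rw [e, opX_single, h2, h4, one_smul, zero_smul, TensorProduct.tmul_zero, Finsupp.single_zero]
    | hadd g h hg hh =>
      intro s
      rw [map_add, map_add, LinearMap.add_apply, hg, hh, Prod.mk_add_mk, add_mul, add_zero]
    | hmul g h hg hh =>
      intro s
      rw [map_mul, map_mul, Module.End.mul_apply, hh, hg, mul_assoc]
  obtain ⟨r, hr⟩ := hf
  refine ⟨r, ?_⟩
  have e1 := key f 1
  rw [← hr] at e1
  have e2 : Ψ (C r) ((1 : GPoly P R ℕ), 0) = (C r * 1, 0) := by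
    simp only [lift_C, Ψ]
    simp [act]
  rw [e2] at e1
  have e3 := (Prod.mk.inj e1).1
  rw [mul_one, mul_one] at e3
  exact e3

/-- from one unknown to countably many -/
theorem closedIn_nat_of_unit [Nontrivial R] {a : R} (ha : a ∉ Set.range (algebraMap P R))
    (h : ClosedIn P R Unit) : ClosedIn P R ℕ := by
  rw [closedIn_iff] at h ⊢
  intro f hf
  obtain ⟨v, hv⟩ := h (subst a f) (fun hcon => hf (subst_detects ha hcon))
  refine ⟨fun i => v () * a * v () ^ (i + 1), ?_⟩
  have e : eval (fun i => v () * a * v () ^ (i + 1)) = (eval v).comp (subst (P := P) a) := by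
    apply hom_ext
    · intro r; simp [eval, subst]
    · intro i; simp [eval, subst]
  rw [e, AlgHom.comp_apply, hv]

theorem closedIn_unit_of_nat (h : ClosedIn P R ℕ) : ClosedIn P R Unit := by
  rw [closedIn_iff] at h ⊢
  intro f hf
  let θ : GPoly P R Unit →ₐ[P] GPoly P R ℕ := lift C (fun _ => var 0)
  let θ' : GPoly P R ℕ →ₐ[P] GPoly P R Unit := lift C (fun _ => var ())
  have e : θ'.comp θ = AlgHom.id P _ := by
    apply hom_ext
    · intro r; simp [θ, θ']
    · intro x; simp [θ, θ']
  obtain ⟨v, hv⟩ := h (θ f) (by
    rintro ⟨r, hr⟩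
    apply hf
    refine ⟨r, ?_⟩
    have h1 : θ' (C r) = θ' (θ f) := by rw [hr]
    have h2 : θ' (θ f) = f := by
      change (θ'.comp θ) f = f
      rw [e]; rfl
    rw [h2] at h1
    rw [← h1]
    simp [θ'])
  refine ⟨fun _ => v 0, ?_⟩
  have e2 : eval (fun _ : Unit => v 0) = (eval v).comp θ := by
    apply hom_ext
    · intro r; simp [eval, θ]
    · intro i; simp [eval, θ]
  rw [e2, AlgHom.comp_apply, hv]

/-- an algebraically closed algebra is not `P` itself -/
theorem exists_not_mem_of_closedIn [Nontrivial R] (h : ClosedIn P R ℕ) :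
    ∃ a : R, a ∉ Set.range (algebraMap P R) := by
  rw [closedIn_iff] at h
  by_contra hcon
  push Not at hcon
  have hcomm : ∀ x y : R, x * y = y * x := by
    intro x y
    obtain ⟨p, rfl⟩ := hcon x
    exact Algebra.commutes p y
  let f : GPoly P R ℕ := var 0 * var 1 - var 1 * var 0 - 1
  have hf : f ∉ Set.range (C : R →ₐ[P] GPoly P R ℕ) := by
    rintro ⟨r, hr⟩
    let ρ : R →ₐ[P] Matrix (Fin 2) (Fin 2) R :=
      { toFun := fun r => Matrix.diagonal (fun _ => r)
        map_one' := Matrix.diagonal_one
        map_mul' := fun x y => by rw [Matrix.diagonal_mul_diagonal]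
        map_zero' := Matrix.diagonal_zero
        map_add' := fun x y => by rw [Matrix.diagonal_add]
        commutes' := fun p => by rw [Matrix.algebraMap_eq_diagonal]; rfl }
    let g : GPoly P R ℕ →ₐ[P] Matrix (Fin 2) (Fin 2) R :=
      lift ρ (fun i => if i = 0 then Matrix.single 0 0 1 else Matrix.single 0 1 1)
    have h1 : g (C r) 0 1 = 0 := by
      simp [g, ρ]
    have h2 : g f 0 1 = 1 := by
      simp only [f, g, map_sub, map_mul, lift_var, map_one]
      simp [Matrix.single_mul_single_same]
    rw [hr, h2] at h1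
    exact one_ne_zero h1
  obtain ⟨v, hv⟩ := h f hf
  simp only [f, eval, map_sub, map_mul, lift_var, map_one] at hv
  rw [hcomm (v 0) (v 1), sub_self, zero_sub, neg_eq_zero] at hv
  exact one_ne_zero hv

/-- `R` is algebraically closed if and only if `R ≠ P` and every equation in one unknown is
solvable. -/
theorem closedIn_nat_iff [Nontrivial R] :
    ClosedIn P R ℕ ↔ (∃ a : R, a ∉ Set.range (algebraMap P R)) ∧ ClosedIn P R Unit :=
  ⟨fun h => ⟨exists_not_mem_of_closedIn h, closedIn_unit_of_nat h⟩,
    fun ⟨⟨_, ha⟩, h⟩ => closedIn_nat_of_unit ha h⟩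

end main

end Pool.Y109E
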